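import Pool.Agent.H.MP_0036f5_lc.Defs

namespace Pool.Agent.H.MP_0036f5_lc

open Relation

variable {S Q G : Type} (M : LA S Q G)

def Ph (T : Q → Q → Prop) (s : G ⊕ Bool) (p p' : Q) : Prop :=
  ∃ r, ReflTransGen (fun a b => ∃ c g, (c, g, false) ∈ M.δ a s ∧ T c b) p r ∧
    ∃ g, (p', g, true) ∈ M.δ r s

def Tab (t : List G) : ℕ → Q → Q → Prop
  | 0 => Ph M (fun _ _ => False) (.inr false)
  | i + 1 => Ph M (Tab t i) (cell t (i + 1))

theorem cell_set (t : List G) (g : G) {i k : ℕ} (h : i ≤ k) : cell (t.set k g) i = cell t i := by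
  rcases i with _ | i
  · rfl
  · simp only [cell]
    rw [List.getElem?_set_ne (by omega)]

theorem tab_set (t : List G) (g : G) {k : ℕ} : ∀ i ≤ k, Tab M (t.set k g) i = Tab M t i
  | 0, _ => rfl
  | i + 1, h => by rw [Tab, Tab, tab_set t g i (by omega), cell_set t g h]

theorem cell_set' (t : List G) (g : G) {k : ℕ} (h : k < t.length) :
    cell (t.set k g) (k + 1) = .inl g := by
  simp [cell, h]

theorem cell_end (t : List G) : cell t (t.length + 1) = .inr true := by simp [cell]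

theorem loop {t : List G} {i j : ℕ} (hj : i + 1 ≤ j)
    (ih : ∀ p p', Tab M t i p p' → ReflTransGen M.Step (p, i, t, j) (p', i + 1, t, j)) {p r : Q}
    (h : ReflTransGen (fun a b => ∃ c g, (c, g, false) ∈ M.δ a (cell t (i + 1)) ∧ Tab M t i c b)
      p r) : ReflTransGen M.Step (p, i + 1, t, j) (r, i + 1, t, j) := by
  induction h with
  | refl => exact .refl
  | tail _ h ih' =>
    obtain ⟨c, g, h1, h2⟩ := h
    refine ih'.trans (.head ⟨g, false, h1, by simp, by simp, rfl, ?_, ?_⟩ (ih _ _ h2))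
    · exact (if_neg (not_lt.2 hj)).symm
    · exact (max_eq_left hj).symm

theorem tab_sound {t : List G} {j : ℕ} : ∀ i ≤ j, i ≤ t.length → ∀ p p', Tab M t i p p' →
    ReflTransGen M.Step (p, i, t, j) (p', i + 1, t, j)
  | 0, _, _, p, p', ⟨r, h1, g, h2⟩ => by
    obtain rfl : p = r := by
      rcases h1.cases_head with h | ⟨_, ⟨_, _, _, h⟩, _⟩
      exacts [h, h.elim]
    exact .single ⟨g, true, h2, by simp, by simp, rfl, by simp, by simp⟩
  | i + 1, h, h', p, p', ⟨r, h1, g, h2⟩ =>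
    (loop M h (tab_sound i (by omega) (by omega)) h1).tail ⟨g, true, h2, by simp,
      fun e => by simp at e; omega, rfl, (if_neg (not_lt.2 h)).symm, (max_eq_left h).symm⟩

abbrev St (Q : Type) : Type := Q × (Q → Q → Prop)

def nstep (x : St Q) (a : S) (y : St Q) : Prop :=
  ∃ q g d, (q, g, d) ∈ M.δ x.1 (.inl (M.inj a)) ∧ y.2 = Ph M x.2 (.inl g) ∧
    if d = true then y.1 = q else ∃ b, x.2 q b ∧ y.2 b y.1

def ninit : St Q := (M.init, Ph M (fun _ _ => False) (.inr false))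

def nfin (x : St Q) : Prop := ∃ f ∈ M.final, Ph M x.2 (.inr true) x.1 f

def Rch {X : Type} (st : X → S → X → Prop) (x0 : X) (w : List S) : ℕ → X → Prop
  | 0 => fun x => x = x0
  | k + 1 => fun y => ∃ x a, Rch st x0 w k x ∧ w[k]? = some a ∧ st x a y

def Raw (w : List S) (t : List G) (k : ℕ) : Prop :=
  t.length = w.length ∧ ∀ i, k ≤ i → t[i]? = (w.map M.inj)[i]?

theorem Raw.set {w : List S} {t : List G} {k : ℕ} (h : Raw M w t k) (g : G) :
    Raw M w (t.set k g) (k + 1) :=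
  ⟨by simp [h.1], fun i hi => by rw [List.getElem?_set_ne (by omega), h.2 i (by omega)]⟩

theorem Raw.cell {w : List S} {t : List G} {k : ℕ} (h : Raw M w t k) {a : S}
    (ha : w[k]? = some a) : cell t (k + 1) = .inl (M.inj a) := by
  simp [MP_0036f5_lc.cell, h.2 k le_rfl, ha]

theorem rch_sound (w : List S) : ∀ k ≤ w.length, ∀ x, Rch (nstep M) (ninit M) w k x →
    ∃ t, Raw M w t k ∧ x.2 = Tab M t k ∧
      ReflTransGen M.Step (M.init, 1, w.map M.inj, 0) (x.1, k + 1, t, k)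
  | 0, _, _, rfl => ⟨_, ⟨by simp, fun _ _ => rfl⟩, rfl, .refl⟩
  | k + 1, hk, y, ⟨x, a, h1, h2, q, g, d, h3, h4, h5⟩ => by
    obtain ⟨t, b1, b2, b3⟩ := rch_sound w k (by omega) x h1
    have hl := b1.1
    have e : y.2 = Tab M (t.set k g) (k + 1) := by
      rw [Tab, tab_set M t g k le_rfl, cell_set' t g (by omega), h4, b2]
    refine ⟨t.set k g, b1.set M g, e, ?_⟩
    rw [← b1.cell M h2] at h3
    cases d
    · obtain ⟨b, h6, h7⟩ := h5
      rw [b2, ← tab_set M t g k le_rfl] at h6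
      rw [e] at h7
      exact (b3.tail ⟨g, false, h3, by simp, by simp, rfl, by simp, by simp⟩).trans
        ((tab_sound M k (Nat.le_succ k) (by simp; omega) _ _ h6).trans
          (tab_sound M (k + 1) le_rfl (by simp; omega) _ _ h7))
    · obtain rfl : y.1 = q := h5
      exact b3.tail ⟨g, true, h3, by simp, fun e => by simp at e; omega, rfl, by simp, by simp⟩

def Ex (t : List G) : ℕ → ℕ → Q → Q → Prop
  | _, 0 => Eq
  | i, n + 1 => fun q p => ∃ c, Tab M t i q c ∧ Ex t (i + 1) n c p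

theorem ex_back {t t' : List G} {q q' p : Q} {i i' j j' n n' : ℕ}
    (h : M.Step (q, i, t, j) (q', i', t', j')) (hn : i + (n + 1) = i' + n')
    (he : Ex M t i' n' q' p) : Ex M t i (n + 1) q p := by
  obtain ⟨g, d, h1, h2, -, h3, -⟩ := h
  simp only at h1 h2 h3
  cases d
  · obtain ⟨k, rfl⟩ : ∃ k, i = k + 1 := Nat.exists_eq_succ_of_ne_zero fun h => by simpa using h2 h
    obtain rfl : i' = k := h3
    obtain rfl : n' = n + 1 + 1 := by omega
    obtain ⟨c, a1, c', ⟨r, a2, a3⟩, a4⟩ := he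
    exact ⟨c', ⟨r, a2.head ⟨_, g, h1, a1⟩, a3⟩, a4⟩
  · obtain rfl : i' = i + 1 := h3
    obtain rfl : n' = n := by omega
    refine ⟨q', ?_, he⟩
    rcases i with _ | i
    exacts [⟨q, .refl, g, h1⟩, ⟨q, .refl, g, h1⟩]

def Inv (w : List S) (x : Q × ℕ × List G × ℕ) : Prop :=
  x.2.1 ≤ w.length + 1 ∧ x.2.1 ≤ x.2.2.2 + 1 ∧ Raw M w x.2.2.1 x.2.2.2 ∧
    if x.2.2.2 ≤ w.length then ∀ p, Ex M x.2.2.1 x.2.1 (x.2.2.2 + 1 - x.2.1) x.1 p →
      Rch (nstep M) (ninit M) w x.2.2.2 (p, Tab M x.2.2.1 x.2.2.2)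
    else ∀ p, Ex M x.2.2.1 x.2.1 (w.length + 2 - x.2.1) x.1 p → ∃ q,
      Rch (nstep M) (ninit M) w w.length (q, Tab M x.2.2.1 w.length) ∧
        Tab M x.2.2.1 (w.length + 1) q p

theorem inv_step {w : List S} {x y : Q × ℕ × List G × ℕ} (hx : Inv M w x) (h : M.Step x y) :
    Inv M w y := by
  obtain ⟨q, i, t, j⟩ := x
  obtain ⟨q', i', t', j'⟩ := y
  obtain ⟨a1, a2, a3, a4⟩ := hx
  obtain ⟨g, d, h1, h2, h3, h4, h5, h6⟩ := id h
  simp only at a1 a2 a3 a4 h1 h2 h3 h4 h5 h6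
  have hl := a3.1
  have b1 : i' ≤ w.length + 1 ∧ i' ≤ i + 1 := by
    cases d
    · simp at h4
      omega
    · simp at h3 h4
      omega
  rcases le_or_gt i j with hi | hi
  · rw [if_neg (not_lt.2 hi)] at h5
    rw [max_eq_left hi] at h6
    subst h5 h6
    refine ⟨b1.1, by simp only; omega, a3, ?_⟩
    simp only
    split_ifs at a4 ⊢ with hj
    · refine fun p hp => a4 p ?_
      rw [show j' + 1 - i = j' - i + 1 by omega]
      exact ex_back M h (by omega) hp
    · refine fun p hp => a4 p ?_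
      rw [show w.length + 2 - i = w.length + 1 - i + 1 by omega]
      exact ex_back M h (by omega) hp
  obtain rfl : i = j + 1 := by omega
  rw [if_pos hi, Nat.add_sub_cancel] at h5
  rw [max_eq_right hi.le] at h6
  rw [if_pos (by omega), Nat.sub_self] at a4
  have a5 := a4 q rfl
  subst h5 h6
  refine ⟨b1.1, by simp only; omega, a3.set M g, ?_⟩
  simp only
  split_ifs with hj
  · intro p hp
    have hw := List.getElem?_eq_getElem (l := w) (i := j) (by omega)
    have e : Tab M (t.set j g) (j + 1) = Ph M (Tab M t j) (.inl g) := by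
      rw [Tab, tab_set M t g j le_rfl, cell_set' t g (by omega)]
    refine ⟨_, _, a5, hw, q', g, d, a3.cell M hw ▸ h1, e, ?_⟩
    cases d
    · obtain rfl : i' = j := h4
      rw [show i' + 1 + 1 - i' = 0 + 1 + 1 by omega] at hp
      obtain ⟨c, c1, c', c2, rfl⟩ := hp
      exact ⟨c, tab_set M t g i' le_rfl ▸ c1, c2⟩
    · obtain rfl : i' = j + 1 + 1 := h4
      rw [Nat.sub_self] at hp
      exact hp.symm
  · intro p hp
    obtain rfl : j = w.length := by omega
    rw [List.set_eq_of_length_le (by omega)] at hp h ⊢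
    obtain ⟨c, c1, rfl⟩ := ex_back M (n := 0) h (by omega) hp
    exact ⟨q, a5, c1⟩

theorem acc_iff (w : List S) :
    M.Accepts w ↔ ∃ x, Rch (nstep M) (ninit M) w w.length x ∧ nfin M x := by
  constructor
  · rintro ⟨q, t, j, h1, f, hf, g, h2⟩
    have : ∀ y, ReflTransGen M.Step (M.init, 1, w.map M.inj, 0) y → Inv M w y := fun y h => by
      induction h with
      | refl =>
        refine ⟨by simp, le_rfl, ⟨by simp, fun _ _ => rfl⟩, ?_⟩
        rw [if_pos (Nat.zero_le _)]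
        rintro p rfl
        rfl
      | tail _ h ih => exact inv_step M ih h
    obtain ⟨-, a2, a3, a4⟩ := this _ h1
    have hc := cell_end t
    rw [a3.1] at hc
    simp only at a2 a4
    split_ifs at a4 with hj
    · obtain rfl : j = w.length := by omega
      rw [Nat.sub_self] at a4
      exact ⟨_, a4 q rfl, f, hf, q, .refl, g, h2⟩
    · rw [show w.length + 2 - (w.length + 1) = 0 + 1 by omega] at a4
      obtain ⟨r, b1, b2⟩ := a4 f ⟨f, ⟨q, .refl, g, hc ▸ h2⟩, rfl⟩
      exact ⟨_, b1, f, hf, hc ▸ b2⟩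
  · rintro ⟨x, h1, f, hf, r, h2, g, h3⟩
    obtain ⟨t, b1, b2, b3⟩ := rch_sound M w _ le_rfl x h1
    have hc := cell_end t
    rw [b1.1] at hc
    rcases h2.cases_head with e | ⟨b, ⟨c, g', c1, c2⟩, c3⟩
    · exact ⟨_, _, _, b3, f, hf, g, e ▸ h3⟩
    · rw [b2, ← hc] at c3
      rw [b2] at c2
      have k := tab_sound M (t := t) (j := w.length + 1) w.length (Nat.le_succ _) b1.1.ge
      refine ⟨r, t, w.length + 1, ((b3.tail ⟨g', false, hc ▸ c1, by simp, by simp, rfl, ?_,
        by simp⟩).trans (k _ _ c2)).trans (loop M le_rfl k c3), f, hf, g, h3⟩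
      simp [List.set_eq_of_length_le b1.1.le]

end Pool.Agent.H.MP_0036f5_lc
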