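import Pool.Agent.H.MP_0036f5_lc.A

namespace Pool.Agent.H.MP_0036f5_lc

inductive Run {A P B : Type} (off : P → ℕ) (upd : P → A → P ⊕ B) (x : ℕ → A) : P → B → Prop
  | done {p b} : upd p (x (off p)) = .inr b → Run off upd x p b
  | step {p p' b} : upd p (x (off p)) = .inl p' → Run off upd x p' b → Run off upd x p b

def BP {A B : Type} (L s : ℕ) (F : (ℕ → A) → B) : Prop :=
  ∃ (P : Type) (_ : Fintype P) (p0 : P) (off : P → ℕ) (upd : P → A → P ⊕ B),
    Fintype.card P ≤ s ∧ (∀ p, off p < L) ∧ ∀ x, Run off upd x p0 (F x)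

variable {A B : Type} {L : ℕ}

theorem BP.mono {s s' : ℕ} {F F' : (ℕ → A) → B} (h : BP L s F) (hs : s ≤ s') (hF : ∀ x, F x = F' x) :
    BP L s' F' := by
  obtain ⟨P, _, p0, off, upd, h1, h2, h3⟩ := h
  exact ⟨P, _, p0, off, upd, h1.trans hs, h2, fun x => hF x ▸ h3 x⟩

theorem bp_query {o : ℕ} (h : o < L) (g : A → B) : BP L 1 fun x => g (x o) :=
  ⟨Unit, inferInstance, (), fun _ => o, fun _ a => .inr (g a), by simp, fun _ => h, fun _ => .done rfl⟩

theorem Run.map {P P' : Type} {off : P → ℕ} {upd : P → A → P ⊕ B} {off' : P' → ℕ}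
    {upd' : P' → A → P' ⊕ B} (f : P → P') (h1 : ∀ p, off' (f p) = off p)
    (h2 : ∀ p a, upd' (f p) a = (upd p a).map f id) {x : ℕ → A} {p : P} {b : B}
    (h : Run off upd x p b) : Run off' upd' x (f p) b := by
  induction h with
  | done h => exact .done (by rw [h1, h2, h]; rfl)
  | step h _ ih => exact .step (by rw [h1, h2, h]; rfl) ih

open Classical in
theorem BP.ite {s s1 s2 : ℕ} {F : (ℕ → A) → Prop} {G H : (ℕ → A) → B} (h : BP L s F)
    (h1 : BP L s1 G) (h2 : BP L s2 H) : BP L (s + (s1 + s2)) fun x => if F x then G x else H x := by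
  obtain ⟨P, _, p0, off, upd, a1, a2, a3⟩ := h
  obtain ⟨P1, _, p1, off1, upd1, b1, b2, b3⟩ := h1
  obtain ⟨P2, _, p2, off2, upd2, c1, c2, c3⟩ := h2
  set O : P ⊕ P1 ⊕ P2 → ℕ := Sum.elim off (Sum.elim off1 off2)
  set U : P ⊕ P1 ⊕ P2 → A → (P ⊕ P1 ⊕ P2) ⊕ B := Sum.elim
    (fun p a => .inl ((upd p a).elim .inl fun b => .inr (if b then .inl p1 else .inr p2)))
    (Sum.elim (fun p a => (upd1 p a).map (fun p => .inr (.inl p)) id)
      fun p a => (upd2 p a).map (fun p => .inr (.inr p)) id)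
  refine ⟨P ⊕ P1 ⊕ P2, inferInstance, .inl p0, O, U, by simp only [Fintype.card_sum]; omega, ?_,
    fun x => ?_⟩
  · rintro (p | p | p)
    exacts [a2 p, b2 p, c2 p]
  have : ∀ p b, Run off upd x p b → Run O U x (.inl p) (if b then G x else H x) := by
    intro p b h
    induction h with
    | @done p b h =>
      refine .step (p' := .inr (if b then .inl p1 else .inr p2)) (by simp [O, U, h]) ?_
      split_ifs
      · exact (b3 x).map (fun p => Sum.inr (Sum.inl p)) (fun _ => rfl) fun _ _ => rfl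
      · exact (c3 x).map (fun p => Sum.inr (Sum.inr p)) (fun _ => rfl) fun _ _ => rfl
    | @step p p' b h _ ih => exact .step (p' := .inl p') (by simp [O, U, h]) ih
  exact this _ _ (a3 x)

theorem bp_const (hL : 0 < L) (b : B) : BP (A := A) L 1 fun _ => b := bp_query hL fun _ => b

theorem BP.and {s s' : ℕ} (hL : 0 < L) {F G : (ℕ → A) → Prop} (h : BP L s F) (h' : BP L s' G) :
    BP L (s + (s' + 1)) fun x => F x ∧ G x :=
  (h.ite h' (bp_const hL False)).mono le_rfl fun x => by by_cases h : F x <;> simp [h]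

theorem bp_ex0 {I : Type} {s : ℕ} (hL : 0 < L) {F : I → (ℕ → A) → Prop} (h : ∀ i, BP L s (F i))
    (l : List I) : BP L (l.length * (s + 1) + 1) fun x => ∃ i ∈ l, F i x := by
  induction l with
  | nil => exact (bp_const hL False).mono (by simp) fun x => by simp
  | cons i l ih =>
    refine ((h i).ite (bp_const hL True) ih).mono (by simp [add_mul]; omega) fun x => ?_
    by_cases h : F i x <;> simp [h]

theorem bp_ex {I : Type} [Fintype I] {s : ℕ} (hL : 0 < L) {F : I → (ℕ → A) → Prop}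
    (h : ∀ i, BP L s (F i)) : BP L (Fintype.card I * (s + 1) + 1) fun x => ∃ i, F i x :=
  (bp_ex0 hL h Finset.univ.toList).mono (by simp) fun x => by simp

theorem BP.pair {s s' : ℕ} (hL : 0 < L) {F G : (ℕ → A) → Prop} (h : BP L s F) (h' : BP L s' G) :
    BP L (s + 2 * s' + 4) fun x => (F x, G x) :=
  (h.ite (h'.ite (bp_const hL (True, True)) (bp_const hL (True, False)))
    (h'.ite (bp_const hL (False, True)) (bp_const hL (False, False)))).mono (by omega) fun x => by
    by_cases h : F x <;> by_cases h' : G x <;> simp [h, h']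

theorem bp_fam {I : Type} [Fintype I] {s : ℕ} {F : I → (ℕ → A) → B} (h : ∀ i, BP L s (F i)) :
    ∃ (P : Type) (_ : Fintype P) (p0 : I → P) (off : P → ℕ) (upd : P → A → P ⊕ B),
      Fintype.card P ≤ Fintype.card I * s ∧ (∀ p, off p < L) ∧
        ∀ i x, Run off upd x (p0 i) (F i x) := by
  choose P fP p0 off upd h1 h2 h3 using h
  refine ⟨Σ i, P i, inferInstance, fun i => ⟨i, p0 i⟩, fun p => off p.1 p.2,
    fun p a => (upd p.1 p.2 a).map (Sigma.mk p.1) id, ?_, fun p => h2 _ _,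
    fun i x => (h3 i x).map (Sigma.mk i) (fun _ => rfl) fun _ _ => rfl⟩
  rw [Fintype.card_sigma]
  exact Finset.sum_le_card_nsmul _ _ _ fun i _ => h1 i

variable {X : Type} (st : X → A → X → Prop)

def Wd (x : ℕ → A) (o : ℕ) : ℕ → X → X → Prop
  | 0 => Eq
  | l + 1 => fun p q => ∃ r, st p (x (o + l)) r ∧ Wd x o l r q

theorem wd_add (x : ℕ → A) (o l : ℕ) : ∀ (m : ℕ) (p q : X),
    Wd st x o (l + m) p q ↔ ∃ r, Wd st x (o + l) m p r ∧ Wd st x o l r q
  | 0, p, q => by simp [Wd]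
  | m + 1, p, q => by
    rw [← Nat.add_assoc, Wd]
    simp only [Wd, wd_add x o l m, Nat.add_assoc]
    constructor
    · rintro ⟨r, h1, r', h2, h3⟩
      exact ⟨r', ⟨r, h1, h2⟩, h3⟩
    · rintro ⟨r', ⟨r, h1, h2⟩, h3⟩
      exact ⟨r, h1, r', h2, h3⟩

theorem bp_wd [Fintype X] (hL : 0 < L) {K : ℕ} (hK : 4 * Fintype.card X + 1 ≤ K) :
    ∀ d o l p q, l ≤ 2 ^ d → o + l ≤ L → BP L (K ^ d) fun x => Wd st x o l p q
  | 0, o, 0, p, q, _, _ => bp_const hL (p = q)
  | 0, o, 1, p, q, _, h => (bp_query (o := o) (by omega) fun a => st p a q).mono le_rfl fun x => by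
    simp [Wd]
  | 0, o, l + 2, _, _, h, _ => by omega
  | d + 1, o, l, p, q, h, h' => by
    have h1 : 1 ≤ K ^ d := Nat.one_le_pow _ _ (by omega)
    rw [pow_succ] at h
    refine (bp_ex hL fun r => (bp_wd hL hK d (o + l / 2) (l - l / 2) p r (by omega)
      (by omega)).and hL (bp_wd hL hK d o (l / 2) r q (by omega) (by omega))).mono ?_ fun x => ?_
    · rw [pow_succ]
      nlinarith
    · rw [← wd_add, Nat.add_sub_cancel' (Nat.div_le_self _ _)]

end Pool.Agent.H.MP_0036f5_lc
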