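import Pool.Agent.H.MP_0036f5_lc.B

namespace Pool.Agent.H.MP_0036f5_lc

open Relation Classical

abbrev Gm (S : Type) : Type := Option (S ⊕ S × Prop)

def dec {S : Type} : Gm S ⊕ Bool → Option (S × Prop)
  | .inl (some (.inr a)) => some a
  | _ => none

def wr {S : Type} (s : Gm S ⊕ Bool) : Gm S := (dec s).map .inr

def fn (L d : ℕ) : Fin (L + 1) := ⟨min d L, by omega⟩

def jf (N : ℕ) [NeZero N] (f : ℕ) : Fin N := ⟨f % N, Nat.mod_lt _ (NeZero.pos N)⟩

abbrev Qm (N L : ℕ) (P : Type) : Type := Option (Fin N × (P ⊕ Prop × Prop) × Fin (L + 1))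

variable {S P : Type} {N L : ℕ} [NeZero N] (p0 : Fin N → P) (off : P → ℕ)
  (upd : P → Option (S × Prop) → P ⊕ Prop × Prop)

noncomputable def nxt : Qm N L P → Gm S ⊕ Bool → Option (Qm N L P × Gm S × Bool)
  | none, _ => none
  | some (j, .inr b, d), s =>
    if d.1 = 0 then
      match s with
      | .inl (some (.inl a)) =>
        some (some (jf N (j + 1), .inl (p0 (jf N (j + 1))), fn L 2), some (.inr (a, b.1)), false)
      | .inr true => if b.2 then some (none, none, true) else none
      | _ => none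
    else some (some (j, .inr b, fn L (d - 1)), wr s, true)
  | some (j, .inl p, d), s =>
    if off p + 1 < d.1 then some (some (j, .inl p, fn L (d - 1)), wr s, true)
    else if d.1 = off p + 1 ∨ s = .inr false then
      some (some (j, upd p (dec s), fn L (if d.1 = 1 then 2 else d - 1)), wr s, decide (d.1 ≠ 1))
    else some (some (j, .inl p, fn L (d + 1)), wr s, false)

noncomputable def mach (L : ℕ) (b0 : Prop × Prop) : LA S (Qm N L P) (Gm S) where
  inj := ⟨fun a => some (.inl a), fun _ _ h => by simpa using h⟩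
  δ q s := {y | nxt p0 off upd q s = some y}
  init := some (jf N 0, .inr b0, fn L 0)
  final := {none}

theorem mach_det (b0 : Prop × Prop) : (mach p0 off upd L b0).Det := fun _ _ _ h _ h' =>
  Option.some.inj (h.symm.trans h')

theorem mach_clean (b0 : Prop × Prop) : (mach p0 off upd L b0).Clean := by
  have k : ∀ a : Gm S, wr (.inl a) ∉ Set.range (mach p0 off upd L b0).inj ∧
      (a ∉ Set.range (mach p0 off upd L b0).inj → wr (.inl a) = a) := by
    rintro (_ | a | a)
    · exact ⟨fun ⟨_, h⟩ => (by cases h), fun _ => rfl⟩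
    · exact ⟨fun ⟨_, h⟩ => (by cases h), fun h => (h ⟨a, rfl⟩).elim⟩
    · exact ⟨fun ⟨_, h⟩ => (by cases h), fun _ => rfl⟩
  rintro (_ | ⟨j, p | b, d⟩) a q' g e h
  · simp [mach, nxt] at h
  · simp only [mach, nxt, Set.mem_ofPred_eq] at h
    split_ifs at h <;> cases h <;> exact k a
  · simp only [mach, nxt, Set.mem_ofPred_eq] at h
    by_cases hd : d.1 = 0
    · rw [if_pos hd] at h
      rcases a with _ | a | a <;> cases h
      exact ⟨fun ⟨_, h⟩ => (by cases h), fun h => (h ⟨a, rfl⟩).elim⟩
    · rw [if_neg hd] at h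
      cases h
      exact k a

def tp (w : List S) (bit : ℕ → Prop) (f : ℕ) : List (Gm S) :=
  w.mapIdx fun i a => if i < f then some (.inr (a, bit i)) else some (.inl a)

def cf (N L : ℕ) [NeZero N] (w : List S) (bit : ℕ → Prop) (f : ℕ) (c : P ⊕ Prop × Prop) (d : ℕ) :
    Qm N L P × ℕ × List (Gm S) × ℕ := (some (jf N f, c, fn L d), f + 1 - d, tp w bit f, f)

variable {p0 off upd} {b0 : Prop × Prop} {w : List S} {bit : ℕ → Prop} {f : ℕ}

theorem mv (hf : f ≤ w.length) {c : P ⊕ Prop × Prop} (c' : P ⊕ Prop × Prop) {d : ℕ} (d' : ℕ)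
    (e : Bool) (h1 : 1 ≤ d) (h2 : d ≤ f + 1) (h3 : d = f + 1 → e = true)
    (h4 : d' = if e = true then d - 1 else d + 1)
    (h : nxt p0 off upd (some (jf N f, c, fn L d)) (cell (tp w bit f) (f + 1 - d)) =
      some (some (jf N f, c', fn L d'), wr (cell (tp w bit f) (f + 1 - d)), e)) :
    (mach p0 off upd L b0).Step (cf N L w bit f c d) (cf N L w bit f c' d') := by
  refine ⟨_, e, h, fun h => h3 ?_, fun h => ?_, ?_, (if_neg ?_).symm, (max_eq_left ?_).symm⟩
  · simp only [cf] at h
    omega
  · simp only [cf, tp, List.length_mapIdx] at h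
    omega
  · simp only [cf, h4]
    split_ifs <;> omega
  · simp only [cf]
    omega
  · simp only [cf]
    omega

theorem home (hf : f ≤ w.length) (b : Prop × Prop) : ∀ d ≤ L, d ≤ f + 1 →
    ReflTransGen (mach p0 off upd L b0).Step (cf N L w bit f (.inr b) d) (cf N L w bit f (.inr b) 0)
  | 0, _, _ => .refl
  | d + 1, h1, h2 => .head (mv hf _ d true (by omega) h2 (fun _ => rfl) rfl (by
      simp only [nxt, fn, min_eq_left h1]
      rw [if_neg (by omega)]
      rfl)) (home hf b d (by omega) (by omega))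

theorem down (hf : f ≤ w.length) (p : P) : ∀ d ≤ L, d ≤ f + 1 → off p + 1 ≤ d →
    ReflTransGen (mach p0 off upd L b0).Step (cf N L w bit f (.inl p) d)
      (cf N L w bit f (.inl p) (off p + 1))
  | 0, _, _, h => by omega
  | d + 1, h1, h2, h3 => by
    rcases h3.eq_or_lt with h | h
    · rw [h]
    · exact .head (mv hf _ d true (by omega) h2 (fun _ => rfl) rfl (by
        simp only [nxt, fn, min_eq_left h1]
        rw [if_pos h]
        rfl)) (down hf p d (by omega) (by omega) (by omega))

theorem cell_ne {G : Type} (t : List G) {i : ℕ} (h : i ≠ 0) : cell t i ≠ .inr false := by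
  obtain ⟨i, rfl⟩ := Nat.exists_eq_succ_of_ne_zero h
  simp only [cell]
  rcases t[i]? with _ | a <;> simp

theorem up (hf : f ≤ w.length) (p : P) (hp : off p < L) : ∀ k d, 1 ≤ d →
    d + k = min (off p + 1) (f + 1) →
    ReflTransGen (mach p0 off upd L b0).Step (cf N L w bit f (.inl p) d)
      (cf N L w bit f (.inl p) (min (off p + 1) (f + 1)))
  | 0, d, _, h => by rw [← h]; exact .refl
  | k + 1, d, h1, h2 => .head (mv hf _ (d + 1) false h1 (by omega) (fun _ => by omega) rfl (by
      simp only [nxt, fn, min_eq_left (show d ≤ L by omega)]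
      rw [if_neg (by omega), if_neg (not_or.2 ⟨by omega, cell_ne _ (by omega)⟩)]))
      (up hf p hp k (d + 1) (by omega) (by omega))

theorem read (hf : f ≤ w.length) (hf' : 1 ≤ f) (hL : 2 ≤ L) (p : P) (hp : off p < L) {d : ℕ}
    (h1 : 1 ≤ d) (h2 : d ≤ L) (h3 : d ≤ f + 1) : ∃ d', 1 ≤ d' ∧ d' ≤ L ∧ d' ≤ f + 1 ∧
    ReflTransGen (mach p0 off upd L b0).Step (cf N L w bit f (.inl p) d)
      (cf N L w bit f (upd p (dec (cell (tp w bit f) (f - off p)))) d') := by
  have a : ReflTransGen (mach p0 off upd L b0).Step (cf N L w bit f (.inl p) d)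
      (cf N L w bit f (.inl p) (min (off p + 1) (f + 1))) := by
    rcases le_total (off p + 1) d with h | h
    · rw [min_eq_left (by omega)]
      exact down hf p d h2 h3 h
    · exact up hf p hp (min (off p + 1) (f + 1) - d) d h1 (by omega)
  obtain ⟨m, hm⟩ : ∃ m, m = min (off p + 1) (f + 1) := ⟨_, rfl⟩
  rw [← hm] at a
  refine ⟨if m = 1 then 2 else m - 1, by split_ifs <;> omega, by split_ifs <;> omega,
    by split_ifs <;> omega, a.tail (mv hf _ _ (decide (m ≠ 1)) (by omega) (by omega)
      (fun _ => by simp; omega) (by by_cases h : m = 1 <;> simp [h]) ?_)⟩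
  · simp only [nxt, fn, min_eq_left (show m ≤ L by omega)]
    rw [if_neg (by omega), if_pos, show f + 1 - m = f - off p by omega]
    rcases le_total (off p) f with h | h
    · exact Or.inl (by omega)
    · rw [show f + 1 - m = 0 by omega]
      exact Or.inr rfl

theorem run (hf : f ≤ w.length) (hf' : 1 ≤ f) (hL : 2 ≤ L) (hp : ∀ p, off p < L) {p : P}
    {b : Prop × Prop} (h : Run off upd (fun o => dec (cell (tp w bit f) (f - o))) p b) :
    ∀ d, 1 ≤ d → d ≤ L → d ≤ f + 1 → ReflTransGen (mach p0 off upd L b0).Step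
      (cf N L w bit f (.inl p) d) (cf N L w bit f (.inr b) 0) := by
  induction h with
  | @done p b h =>
    intro d h1 h2 h3
    obtain ⟨d', -, a2, a3, a4⟩ := read (p0 := p0) (upd := upd) (b0 := b0) (bit := bit)
      hf hf' hL p (hp p) h1 h2 h3
    rw [h] at a4
    exact a4.trans (home hf b d' a2 a3)
  | @step p p' b h _ ih =>
    intro d h1 h2 h3
    obtain ⟨d', a1, a2, a3, a4⟩ := read (p0 := p0) (upd := upd) (b0 := b0) (bit := bit)
      hf hf' hL p (hp p) h1 h2 h3
    rw [h] at a4
    exact a4.trans (ih d' a1 a2 a3)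

theorem adv (hf : f < w.length) (a : Prop) : (mach p0 off upd L b0).Step
    (cf N L w bit f (.inr (bit f, a)) 0) (cf N L w bit (f + 1) (.inl (p0 (jf N (f + 1)))) 2) := by
  refine ⟨some (.inr (w[f], bit f)), false, ?_, by simp [cf], fun _ => rfl, by simp [cf], ?_,
    by simp [cf]⟩
  · have : cell (tp w bit f) (f + 1) = .inl (some (.inl w[f])) := by simp [cell, tp, hf]
    simp [mach, cf, this, nxt, fn, jf]
  · simp only [cf, Nat.sub_zero, Nat.lt_succ_self, if_true, Nat.add_sub_cancel, tp]
    refine List.ext_getElem (by simp) fun i h1 h2 => ?_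
    rw [List.getElem_set]
    split_ifs with h
    · subst h
      simp
    · simp only [List.getElem_mapIdx, show i < f + 1 ↔ i < f by omega]

theorem LA.Det.ru {Q G : Type} {M : LA S Q G} (h : M.Det) : Relator.RightUnique M.Step := by
  rintro x ⟨_, _, _, _⟩ ⟨_, _, _, _⟩ ⟨g, d, a1, -, -, rfl, rfl, rfl⟩ ⟨g', d', b1, -, -, rfl, rfl, rfl⟩
  cases h _ _ a1 b1
  rfl

theorem mach_acc {F : Fin N → (ℕ → Option (S × Prop)) → Prop × Prop} {acc : ℕ → Prop}
    (hL : 2 ≤ L) (hp : ∀ p, off p < L) (hr : ∀ j x, Run off upd x (p0 j) (F j x))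
    (hF : ∀ f ≤ w.length, F (jf N f) (fun o => dec (cell (tp w bit f) (f - o))) = (bit f, acc f)) :
    (mach p0 off upd L (F (jf N 0) fun _ => none)).Accepts w ↔ acc w.length := by
  set M := mach p0 off upd L (F (jf N 0) fun _ => none)
  have k : ∀ f ≤ w.length, ReflTransGen M.Step (M.init, 1, w.map M.inj, 0)
      (cf N L w bit f (.inr (bit f, acc f)) 0) := by
    intro f hf
    induction f with
    | zero =>
      have e : tp w bit 0 = w.map M.inj :=
        List.ext_getElem (by simp [tp]) fun i h1 h2 => by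
          simp only [tp, List.getElem_mapIdx, Nat.not_lt_zero, if_false, List.getElem_map]
          rfl
      rw [← hF 0 hf]
      simp only [cf, Nat.zero_sub, e]
      exact .refl
    | succ f ih =>
      rw [← hF _ hf]
      exact ((ih (by omega)).tail (adv hf _)).trans
        (run hf (by omega) hL hp (hr _ _) 2 (by omega) hL (by omega))
  have k1 := k _ le_rfl
  have hl : (tp w bit w.length).length = w.length := by simp [tp]
  constructor
  · rintro ⟨q, t, j, h1, q', -, g, h2⟩
    have ht : ∀ y, ReflTransGen M.Step (M.init, 1, w.map M.inj, 0) y →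
        y.2.2.1.length = w.length := fun y h => by
      induction h with
      | refl => simp
      | tail _ h ih =>
        obtain ⟨g, d, -, -, -, -, h, -⟩ := h
        rw [h]
        split_ifs <;> simpa using ih
    have ht' : t.length = w.length := ht _ h1
    have e : (q, w.length + 1, t, j) = cf N L w bit w.length (.inr (bit w.length, acc w.length)) 0 := by
      rcases ReflTransGen.total_of_right_unique (mach_det p0 off upd _).ru h1 k1 with h | h
      · rcases h.cases_head with h | ⟨y, ⟨g', d, a1, -, a2, -⟩, -⟩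
        · exact h
        · simp only [← ht', cell_end] at a1
          cases mach_det p0 off upd _ _ _ a1 h2
          simp [ht'] at a2
      · rcases h.cases_head with h | ⟨y, ⟨g', d, a1, -, a2, -⟩, -⟩
        · exact h.symm
        · have := cell_end (tp w bit w.length)
          rw [hl] at this
          simp only [cf, Nat.sub_zero, this, hl, forall_const] at a1 a2
          simp [mach, nxt, fn, a2] at a1
    obtain rfl : q = _ := congrArg Prod.fst e
    simp [M, mach, cf, nxt, fn] at h2
    exact h2.1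
  · exact fun h => ⟨_, _, _, k1, none, rfl, none, by simp [M, mach, nxt, fn, h]⟩

end Pool.Agent.H.MP_0036f5_lc
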