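import Pool.Agent.H.MP_0036f5_lc.C

namespace Pool.Agent.H.MP_0036f5_lc

variable {S X : Type} (st : X → S → X → Prop) (x0 : X)

def st' (p : X) : Option (S × Prop) → X → Prop
  | none => fun r => p = r
  | some a => st p a.1

theorem win (w : List S) (bit : ℕ → Prop) {f : ℕ} (hf : f ≤ w.length) (o : ℕ) :
    dec (cell (tp w bit f) (f - o)) =
      if h : o < f then some (w[f - o - 1], bit (f - o - 1)) else none := by
  split_ifs with h
  · obtain ⟨k, hk⟩ : ∃ k, f - o = k + 1 := ⟨f - o - 1, by omega⟩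
    have h1 : k < w.length := by omega
    have h2 : k < f := by omega
    simp [hk, cell, tp, h1, h2, dec]
  · rw [show f - o = 0 by omega]
    rfl

theorem link (w : List S) (bit : ℕ → Prop) {f : ℕ} (hf : f ≤ w.length) (o : ℕ) : ∀ l q,
    (∃ p, Rch st x0 w (f - (o + l)) p ∧
      Wd (st' st) (fun o => dec (cell (tp w bit f) (f - o))) o l p q) ↔ Rch st x0 w (f - o) q
  | 0, q => by simp [Wd]
  | l + 1, q => by
    rw [← link w bit hf o l q]
    simp only [Wd, win w bit hf (o + l)]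
    split_ifs with h
    · have h1 : f - (o + l) - 1 < w.length := by omega
      have h2 : Rch st x0 w (f - (o + l)) = Rch st x0 w (f - (o + l) - 1 + 1) := by
        congr 1
        omega
      rw [h2, show f - (o + (l + 1)) = f - (o + l) - 1 by omega]
      simp only [Rch, st', List.getElem?_eq_getElem h1, Option.some.injEq]
      constructor
      · rintro ⟨p, a1, r, a2, a3⟩
        exact ⟨r, ⟨p, _, a1, rfl, a2⟩, a3⟩
      · rintro ⟨r, ⟨p, _, a1, rfl, a2⟩, a3⟩
        exact ⟨p, a1, r, a2, a3⟩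
    · rw [show f - (o + (l + 1)) = f - (o + l) by omega]
      simp [st']

def vb (p : X) : Option (S × Prop) → Prop
  | none => p = x0
  | some a => a.2

theorem det [Fintype S] [Fintype X] (fin : X → Prop) {K D : ℕ} (hK : 4 * Fintype.card X + 4 ≤ K)
    (hD : 2 * Fintype.card X ≤ 2 ^ D) :
    ∃ (Q' G' : Type) (_ : Fintype Q') (_ : Fintype G') (M' : LA S Q' G'), M'.Det ∧ M'.Clean ∧
      Fintype.card Q' ≤ K ^ (D + 7) ∧ Fintype.card G' ≤ 3 * Fintype.card S + 1 ∧
      ∀ w, M'.Accepts w ↔ ∃ x, Rch st x0 w w.length x ∧ fin x := by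
  classical
  obtain ⟨N, hN⟩ : ∃ N, Fintype.card X = N := ⟨_, rfl⟩
  have e : X ≃ Fin N := Fintype.equivFinOfCardEq hN
  have N0 : 0 < N := hN ▸ Fintype.card_pos_iff.2 ⟨x0⟩
  have : NeZero N := ⟨N0.ne'⟩
  have hL : 0 < 2 * N := by omega
  set Y : ℕ → ℕ → ℕ → X → (ℕ → Option (S × Prop)) → Prop := fun j o l q x =>
    ∃ p, vb x0 p (x (j + N - 1 - e p)) ∧ Wd (st' st) x o l p q
  have k1 : 1 ≤ K ^ D := Nat.one_le_pow _ _ (by omega)
  rw [hN] at hK hD
  have hY : ∀ j o l q, j < N → o + l ≤ 2 * N → BP (2 * N) (K ^ (D + 1)) (Y j o l q) := by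
    intro j o l q h1 h2
    refine (bp_ex hL fun p => (bp_query (o := j + N - 1 - e p) (by omega) (vb x0 p)).and hL
      (bp_wd (st' st) hL (K := K) (by omega) D o l p q (by omega) h2)).mono ?_ fun _ => rfl
    rw [pow_succ, hN]
    nlinarith
  have k2 : 1 ≤ K ^ (D + 1) := Nat.one_le_pow _ _ (by omega)
  have hF : ∀ j : Fin N, BP (2 * N) (K ^ (D + 3)) fun x =>
      (Y j j N (e.symm j) x, ∃ q, Y j 0 (j + N) q x ∧ fin q) := fun j => by
    refine ((hY j j N _ j.2 (by omega)).pair hL (s' := K ^ (D + 2)) ((bp_ex hL fun q =>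
      (hY j 0 (j + N) q j.2 (by omega)).and hL (bp_const hL (fin q))).mono ?_ fun _ => rfl)).mono
      ?_ fun _ => rfl
    · rw [pow_succ K (D + 1), hN]
      nlinarith
    · have := Nat.mul_le_mul_left (K ^ (D + 1)) (show 8 ≤ K by omega)
      have := Nat.mul_le_mul_left (K ^ (D + 1) * K) (show 8 ≤ K by omega)
      rw [pow_succ K (D + 2), pow_succ K (D + 1)]
      omega
  obtain ⟨P, _, p0, off, upd, a1, a2, a3⟩ := bp_fam hF
  refine ⟨_, _, inferInstance, inferInstance, mach p0 off upd (2 * N) ?_, mach_det _ _ _ _,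
    mach_clean _ _ _ _, ?_, by simp; omega, fun w => ?_⟩
  rotate_left
  · simp only [Fintype.card_option, Fintype.card_prod, Fintype.card_fin, Fintype.card_sum,
      Fintype.card_prop] at a1 ⊢
    have k3 : 1 ≤ K ^ (D + 3) := Nat.one_le_pow _ _ (by omega)
    have b1 : Fintype.card P + 2 * 2 ≤ K ^ (D + 3) * K := by nlinarith
    have b2 : (Fintype.card P + 2 * 2) * (2 * N + 1) ≤ K ^ (D + 3) * K * K :=
      Nat.mul_le_mul b1 (by omega)
    have b3 := Nat.mul_le_mul (show N ≤ K by omega) b2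
    have b4 : 1 ≤ K * (K ^ (D + 3) * K * K) := by
      have : 0 < K := by omega
      exact Nat.succ_le_of_lt (by positivity)
    calc _ ≤ K * (K ^ (D + 3) * K * K) * K := by nlinarith
      _ = _ := by ring
  refine mach_acc (bit := fun i => Rch st x0 w (i - i % N) (e.symm (jf N i)))
    (acc := fun f => ∃ x, Rch st x0 w f x ∧ fin x) (by omega) a2 a3 fun f hf => ?_
  set bit := fun i => Rch st x0 w (i - i % N) (e.symm (jf N i))
  have h1 := Nat.mod_lt f N0
  have h2 := Nat.mod_le f N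
  have hv : ∀ p, vb x0 p (dec (cell (tp w bit f) (f - (f % N + N - 1 - e p)))) ↔
      Rch st x0 w (f - (f % N + N)) p := fun p => by
    have h3 := (e p).2
    have h4 := Nat.div_add_mod f N
    rw [win w bit hf]
    rcases h5 : f / N with _ | m
    · rw [h5] at h4
      rw [dif_neg (by omega), show f - (f % N + N) = 0 by omega]
      rfl
    · rw [h5, Nat.mul_succ] at h4
      rw [dif_pos (by omega)]
      have h6 : f - (f % N + N - 1 - e p) - 1 = N * m + e p := by omega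
      have h7 : (N * m + e p) % N = e p := by rw [Nat.mul_add_mod, Nat.mod_eq_of_lt h3]
      simp only [vb, h6, bit, h7, show jf N (N * m + e p) = e p from Fin.ext h7,
        Equiv.symm_apply_apply, Nat.add_sub_cancel]
      rw [show f - (f % N + N) = N * m by omega]
  simp only [Y, jf, hv, Prod.mk.injEq, eq_iff_iff]
  refine ⟨link st x0 w bit hf _ _ _, exists_congr fun q => and_congr_left' ?_⟩
  simpa using link st x0 w bit hf 0 (f % N + N) q

theorem main {S Q G : Type} [Fintype S] [Fintype Q] (M : LA S Q G) :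
    ∃ (Q' G' : Type) (_ : Fintype Q') (_ : Fintype G') (M' : LA S Q' G'), M'.Det ∧ M'.Clean ∧
      Fintype.card Q' ≤ 2 ^ (50 * Fintype.card Q ^ 4) ∧ Fintype.card G' ≤ 3 * Fintype.card S + 1 ∧
      ∀ w, M'.Accepts w ↔ M.Accepts w := by
  classical
  obtain ⟨n, hn⟩ : ∃ n, Fintype.card Q = n := ⟨_, rfl⟩
  have n0 : 1 ≤ n := hn ▸ Fintype.card_pos_iff.2 ⟨M.init⟩
  have h1 : Fintype.card (St Q) < 2 ^ (n + n * n) := by
    simp only [Fintype.card_prod, Fintype.card_fun, Fintype.card_prop, hn, ← pow_mul, pow_add]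
    exact Nat.mul_lt_mul_of_pos_right Nat.lt_two_pow_self (by positivity)
  obtain ⟨Q', G', _, _, M', a1, a2, a3, a4, a5⟩ := det (nstep M) (ninit M) (nfin M)
    (K := 2 ^ (n + n * n + 2)) (D := n + n * n + 1) (by rw [pow_add _ _ 2]; omega)
    (by rw [pow_succ]; omega)
  refine ⟨Q', G', _, _, M', a1, a2, a3.trans ?_, a4, fun w => (a5 w).trans (acc_iff M w).symm⟩
  rw [← pow_mul, hn]
  refine Nat.pow_le_pow_right two_pos ?_
  have h2 : n ≤ n * n := Nat.le_mul_self n
  calc _ ≤ (4 * (n * n)) * (10 * (n * n)) := Nat.mul_le_mul (by omega) (by omega)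
    _ ≤ _ := by nlinarith [sq_nonneg (n * n)]

theorem size_le {S Q G Q' G' : Type} [Fintype S] [Fintype Q] [Fintype G] [Fintype Q'] [Fintype G']
    (M : LA S Q G) (M' : LA S Q' G') (h : M'.Det)
    (h1 : Fintype.card Q' ≤ 2 ^ (50 * Fintype.card Q ^ 4))
    (h2 : Fintype.card G' ≤ 3 * Fintype.card S + 1) : M'.size ≤ 2 ^ (55 * M.size ^ 4) := by
  have a1 : {x : Q' × (G' ⊕ Bool) × Q' × G' × Bool | x.2.2 ∈ M'.δ x.1 x.2.1}.ncard ≤
      Fintype.card Q' * (Fintype.card G' + 2) := by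
    refine (Set.ncard_le_ncard_of_injOn (t := Set.univ) (fun x => (x.1, x.2.1)) (fun _ _ => trivial)
      ?_).trans_eq (by simp [Set.ncard_univ])
    rintro ⟨q, s, y⟩ hy ⟨q', s', y'⟩ hy' e
    cases e
    cases h _ _ hy hy'
    rfl
  have a2 := Fintype.card_le_of_embedding M.inj
  have a3 : 1 ≤ Fintype.card Q := Fintype.card_pos_iff.2 ⟨M.init⟩
  have a4 : Fintype.card Q + Fintype.card G ≤ M.size := by simp [LA.size]
  obtain ⟨z, hz⟩ : ∃ z, M.size = z := ⟨_, rfl⟩
  rw [hz] at a4 ⊢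
  have a5 : Fintype.card Q' ≤ 2 ^ (50 * z ^ 4) := h1.trans (Nat.pow_le_pow_right two_pos
    (Nat.mul_le_mul_left _ (Nat.pow_le_pow_left (by omega) _)))
  have a6 : z ≤ z ^ 4 := Nat.le_self_pow (by norm_num) z
  have a7 : z < 2 ^ z := Nat.lt_two_pow_self
  have a8 : 2 ^ (4 + z) ≤ 2 ^ (5 * z ^ 4) := Nat.pow_le_pow_right two_pos (by omega)
  have a9 : 1 ≤ 2 ^ (50 * z ^ 4) := Nat.one_le_two_pow
  rw [show 55 * z ^ 4 = 50 * z ^ 4 + 5 * z ^ 4 by ring, pow_add]
  rw [pow_add] at a8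
  simp only [LA.size, Nat.card_eq_fintype_card]
  have b1 := Nat.mul_le_mul a5 (le_refl (Fintype.card G' + 2))
  have b2 := Nat.mul_le_mul a9 (le_refl (Fintype.card G'))
  have b3 := Nat.mul_le_mul_left (2 ^ (50 * z ^ 4))
    (show 2 * Fintype.card G' + 3 ≤ 2 ^ (5 * z ^ 4) by omega)
  nlinarith

end Pool.Agent.H.MP_0036f5_lc
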