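import Mathlib

namespace Pool.Agent.H.MP_0036f5_lc

/-- A 1-limited automaton with input alphabet `S`, states `Q` and writable symbols `G`.
Tape symbols are `G ⊕ Bool`; `inr false` and `inr true` are the left and right end-markers.
A move is a triple (new state, written symbol, direction), `true` meaning right. -/
structure LA (S Q G : Type) where
  inj : S ↪ G
  δ : Q → G ⊕ Bool → Set (Q × G × Bool)
  init : Q
  final : Set Q

/-- The symbol in position `i` of the tape holding `t` between the end-markers. -/
def cell {G : Type} (t : List G) : ℕ → G ⊕ Bool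
  | 0 => .inr false
  | i + 1 => (t[i]?).elim (.inr true) .inl

/-- One move between configurations (state, head position, tape, largest visited position). -/
def LA.Step {S Q G : Type} (M : LA S Q G) (x y : Q × ℕ × List G × ℕ) : Prop :=
  ∃ g d, (y.1, g, d) ∈ M.δ x.1 (cell x.2.2.1 x.2.1) ∧
    (x.2.1 = 0 → d = true) ∧ (x.2.1 = x.2.2.1.length + 1 → d = false) ∧
    y.2.1 = (if d = true then x.2.1 + 1 else x.2.1 - 1) ∧
    y.2.2.1 = (if x.2.2.2 < x.2.1 then x.2.2.1.set (x.2.1 - 1) g else x.2.2.1) ∧
    y.2.2.2 = max x.2.2.2 x.2.1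

def LA.Accepts {S Q G : Type} (M : LA S Q G) (w : List S) : Prop :=
  ∃ q t j, Relation.ReflTransGen M.Step (M.init, 1, w.map M.inj, 0) (q, w.length + 1, t, j) ∧
    ∃ q' ∈ M.final, ∃ g, (q', g, true) ∈ M.δ q (.inr true)

def LA.Det {S Q G : Type} (M : LA S Q G) : Prop := ∀ q s, (M.δ q s).Subsingleton

/-- Input symbols are overwritten by non-input symbols, and these are always written back. -/
def LA.Clean {S Q G : Type} (M : LA S Q G) : Prop :=
  ∀ q a q' g d, (q', g, d) ∈ M.δ q (.inl a) →
    g ∉ Set.range M.inj ∧ (a ∉ Set.range M.inj → g = a)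

/-- Number of states plus number of writable symbols plus number of transitions. -/
noncomputable def LA.size {S Q G : Type} (M : LA S Q G) : ℕ :=
  Nat.card Q + Nat.card G + {x : Q × (G ⊕ Bool) × Q × G × Bool | x.2.2 ∈ M.δ x.1 x.2.1}.ncard

end Pool.Agent.H.MP_0036f5_lc
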